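import Pool.Agent.U722.FF.Stm3

set_option autoImplicit false

/-! Project LI, package CHILD (helper722, helper580). -/

namespace Pool.Agent.U580.LIP

open MulAction U722.FF

theorem t_CHILD : S_CHILD := by
  classical
  intro G V E _ _ _ T s t hT hO hP r
  have H : ∀ q : orbitRel.Quotient G E, ∃ f : V → ℤ, (∀ (g : G) (v : V), f (g • v) = f v) ∧
      ∀ e, f (t e) - f (s e) = if (Quotient.mk'' e : orbitRel.Quotient G E) = q then 1 else 0 := by
    intro q
    obtain ⟨f, hf, hf'⟩ := hP (Quotient.out q)
    refine ⟨f, hf, fun e => ?_⟩
    rw [hf' e]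
    have : e ∈ orbit G (Quotient.out q) ↔ (Quotient.mk'' e : orbitRel.Quotient G E) = q := by
      rw [← orbitRel_apply, ← Quotient.eq'']
      constructor
      · intro h
        rw [h]
        exact Quotient.out_eq' q
      · intro h
        rw [h]
        exact (Quotient.out_eq' q).symm
    simp only [this]
  choose f hinv hf using H
  -- the child
  set c : orbitRel.Quotient G E → orbitRel.Quotient G V := fun q =>
    if f q (s (Quotient.out q)) ≠ f q r then Quotient.mk'' (s (Quotient.out q))
    else Quotient.mk'' (t (Quotient.out q)) with hc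
  have hfq : ∀ (q : orbitRel.Quotient G E) (v w : V),
      (Quotient.mk'' v : orbitRel.Quotient G V) = Quotient.mk'' w → f q v = f q w := by
    intro q v w h
    rw [Quotient.eq'', orbitRel_apply] at h
    obtain ⟨g, rfl⟩ := h
    exact hinv q g w
  have hout : ∀ q : orbitRel.Quotient G E, f q (t (Quotient.out q)) - f q (s (Quotient.out q)) = 1 := by
    intro q
    rw [hf q]
    have : (Quotient.mk'' (Quotient.out q) : orbitRel.Quotient G E) = q := Quotient.out_eq' q
    rw [if_pos this]
  have hcr : ∀ (q : orbitRel.Quotient G E) (v : V), c q = Quotient.mk'' v → f q v ≠ f q r := by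
    intro q v h
    simp only [hc] at h
    split_ifs at h with h1
    · rw [← hfq q _ _ h]; exact h1
    · rw [← hfq q _ _ h]
      have := hout q
      push Not at h1
      intro h2
      omega
  have hce : ∀ e : E, c (Quotient.mk'' e) = Quotient.mk'' (s e) ∨
      c (Quotient.mk'' e) = Quotient.mk'' (t e) := by
    intro e
    have h1 : (Quotient.mk'' (Quotient.out (Quotient.mk'' e : orbitRel.Quotient G E)) :
        orbitRel.Quotient G E) = Quotient.mk'' e := Quotient.out_eq' _
    rw [Quotient.eq'', orbitRel_apply] at h1
    obtain ⟨g, hg⟩ := h1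
    have hg' : g • e = Quotient.out (Quotient.mk'' e : orbitRel.Quotient G E) := hg
    have hs : (Quotient.mk'' (s (Quotient.out (Quotient.mk'' e : orbitRel.Quotient G E))) :
        orbitRel.Quotient G V) = Quotient.mk'' (s e) := by
      rw [Quotient.eq'', orbitRel_apply, ← hg', hO.s_act]
      exact ⟨g, rfl⟩
    have ht : (Quotient.mk'' (t (Quotient.out (Quotient.mk'' e : orbitRel.Quotient G E))) :
        orbitRel.Quotient G V) = Quotient.mk'' (t e) := by
      rw [Quotient.eq'', orbitRel_apply, ← hg', hO.t_act]
      exact ⟨g, rfl⟩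
    simp only [hc]
    split_ifs
    · left; exact hs
    · right; exact ht
  -- walks
  have hwalk : ∀ (q : orbitRel.Quotient G E) (a b : V) (w : T.Walk a b), f q a ≠ f q b →
      ∃ y ∈ w.support, c q = Quotient.mk'' y := by
    intro q a b w
    induction w with
    | nil => intro h; exact absurd rfl h
    | @cons u v w hadj p ih =>
      intro h
      by_cases h1 : f q u = f q v
      · rw [h1] at h
        obtain ⟨y, hy, hy'⟩ := ih h
        exact ⟨y, by rw [SimpleGraph.Walk.support_cons]; exact List.mem_cons_of_mem _ hy, hy'⟩
      · obtain ⟨e, he⟩ := hO.all u v hadj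
        have hq : (Quotient.mk'' e : orbitRel.Quotient G E) = q := by
          by_contra hne
          have h2 := hf q e
          rw [if_neg hne] at h2
          rcases he with ⟨e1, e2⟩ | ⟨e1, e2⟩
          · rw [e1, e2] at h2; omega
          · rw [e1, e2] at h2; omega
        have h3 := hce e
        rw [hq] at h3
        have hu : u ∈ (SimpleGraph.Walk.cons hadj p).support := SimpleGraph.Walk.start_mem_support _
        have hv : v ∈ (SimpleGraph.Walk.cons hadj p).support := by
          rw [SimpleGraph.Walk.support_cons]
          exact List.mem_cons_of_mem _ (SimpleGraph.Walk.start_mem_support _)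
        rcases he with ⟨e1, e2⟩ | ⟨e1, e2⟩ <;> rcases h3 with h3 | h3
        · exact ⟨u, hu, by rw [h3, e1]⟩
        · exact ⟨v, hv, by rw [h3, e2]⟩
        · exact ⟨v, hv, by rw [h3, e1]⟩
        · exact ⟨u, hu, by rw [h3, e2]⟩
  refine ⟨c, ?_, ?_, hce⟩
  · intro q q' hqq'
    by_contra hne
    -- a closest vertex in the orbit
    obtain ⟨x, hx, hmin⟩ : ∃ x : V, c q = Quotient.mk'' x ∧
        ∀ y : V, c q = Quotient.mk'' y → T.dist x r ≤ T.dist y r := by
      have hne' : ({v | c q = Quotient.mk'' v} : Set V).Nonempty :=
        ⟨Quotient.out (c q), (Quotient.out_eq' (c q)).symm⟩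
      obtain ⟨m, hm, hm'⟩ := (measure (fun v : V => T.dist v r)).wf.has_min _ hne'
      refine ⟨m, hm, fun y hy => ?_⟩
      have := hm' y hy
      exact not_lt.1 this
    have hx' : c q' = Quotient.mk'' x := by rw [← hqq']; exact hx
    have h1 := hcr q x hx
    have h2 := hcr q' x hx'
    obtain ⟨w, hw⟩ := hT.1.exists_walk_length_eq_dist x r
    cases w with
    | nil => exact h1 rfl
    | @cons _ p _ hadj w' =>
      rw [SimpleGraph.Walk.length_cons] at hw
      obtain ⟨e, he⟩ := hO.all x p hadj
      -- the argument for the class different from that of `e`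
      have key : ∀ k : orbitRel.Quotient G E, c k = c q → f k x ≠ f k r →
          (Quotient.mk'' e : orbitRel.Quotient G E) ≠ k → False := by
        intro k hk hkx hke
        have h3 := hf k e
        rw [if_neg hke] at h3
        have h4 : f k p = f k x := by
          rcases he with ⟨e1, e2⟩ | ⟨e1, e2⟩
          · rw [e1, e2] at h3; omega
          · rw [e1, e2] at h3; omega
        obtain ⟨y, hy, hy'⟩ := hwalk k p r w' (by rw [h4]; exact hkx)
        have h5 := hmin y (by rw [← hk]; exact hy')
        have h6 : T.dist y r ≤ w'.length := by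
          have h7 := (SimpleGraph.dist_le (w'.dropUntil y hy))
          have h8 := w'.length_dropUntil_le_length hy
          exact h7.trans h8
        omega
      by_cases hq : (Quotient.mk'' e : orbitRel.Quotient G E) = q
      · exact key q' hqq'.symm h2 (by rw [hq]; exact hne)
      · exact key q rfl h1 hq
  · intro q h
    exact hcr q r h rfl

end Pool.Agent.U580.LIP
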